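import Pool.Agent.Helper1.RK.StD

/-!
# Project RK (MP_de00bc_nt): module T4
-/

set_option autoImplicit false

namespace Pool.Agent.Helper6.RK

open Pool.Agent.Helper1.RK

theorem pT4 (h1 : StG4) (h2 : StDEX) : StT4 := by
  intro L _ _ _ r lam u hr hlam h0 hsq
  obtain ⟨dl, hc, h11, h00⟩ := h2 L r lam hlam
  refine h1 L r dl lam u hr hc (fun k => ?_) h00 h0 hsq
  rw [h11 k]
  exact one_ne_zero

end Pool.Agent.Helper6.RK
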