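import Mathlib
import Pool.Agent.Helper43.RK.StI

/-!
# Module IEN of project RK
-/

set_option autoImplicit false

namespace Pool.Agent.Helper6.RK

open Pool.Agent.Helper43.RK

theorem Z_comm_f {Λ : Type} [CommRing Λ] {G : Type} [Group G] {k : ℤ} (P : PP Λ G k) (j : ℤ) :
    P.f⁻¹ * P.Z ^ j * P.f = P.Z ^ j := by
  have h : Commute P.f (P.Z ^ j) := by
    unfold PP.Z
    exact ((Commute.refl P.f).zpow_right _).zpow_right _
  rw [mul_assoc, ← h.eq, ← mul_assoc, inv_mul_cancel, one_mul]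

theorem hIEN : StIEN := by
  intro hIRU Λ _ G _ k P x z j hk h
  obtain ⟨R1, R2, R3, R4, R5, R6⟩ := hIRU Λ G (k : ℤ) P
  have up1 : P.up ((k : ℤ) - 1) * 2 = P.up (k : ℤ) := by
    rw [← P.up_one, ← P.up_add]; congr 1; ring
  have upk : P.up (k : ℤ) = 2 ^ k := by
    unfold PP.up
    rw [zpow_natCast, Units.val_pow_eq_pow_val, P.hu]
  have pf : ∀ w, P.f⁻¹ * P.p w * P.f = P.p (2 * w) := P.pf
  -- Z p(2w) = p (2^k w) Z
  have Zp : ∀ w, P.Z * P.p (2 * w) = P.p (P.up (k : ℤ) * w) * P.Z := by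
    intro w
    have h1 := R1 1 (2 * w)
    rw [zpow_one, mul_one] at h1
    rw [h1, ← up1]
    congr 2
    ring
  have Za : P.Z * P.a = P.a * P.Z ^ (k : ℤ) := by
    have h1 := R2 1
    rwa [zpow_one, mul_one] at h1
  -- step 1
  have s1 : P.a * P.p (P.up (k : ℤ) * x) * P.a = P.p (2 * z) * P.Z ^ (j - k - 1) := by
    have e1 : P.f⁻¹ * (P.a * P.p x * P.a) * P.f = (P.a * P.Z) * P.p (2 * x) * (P.a * P.Z) := by
      rw [← R3, ← pf]; group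
    have e2 : P.f⁻¹ * (P.p z * P.Z ^ j) * P.f = P.p (2 * z) * P.Z ^ j := by
      rw [← pf]
      nth_rewrite 2 [← Z_comm_f P j]
      group
    have e3 : (P.a * P.Z) * P.p (2 * x) * (P.a * P.Z)
        = P.a * P.p (P.up (k : ℤ) * x) * P.a * P.Z ^ ((k : ℤ) + 1) := by
      calc (P.a * P.Z) * P.p (2 * x) * (P.a * P.Z)
          = P.a * (P.Z * P.p (2 * x)) * P.a * P.Z := by group
        _ = P.a * (P.p (P.up (k : ℤ) * x) * P.Z) * P.a * P.Z := by rw [Zp]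
        _ = P.a * P.p (P.up (k : ℤ) * x) * (P.Z * P.a) * P.Z := by group
        _ = P.a * P.p (P.up (k : ℤ) * x) * (P.a * P.Z ^ (k : ℤ)) * P.Z := by rw [Za]
        _ = P.a * P.p (P.up (k : ℤ) * x) * P.a * P.Z ^ ((k : ℤ) + 1) := by
            rw [zpow_add, zpow_one]; group
    rw [h, e2, e3] at e1
    have e4 : P.Z ^ (j - k - 1) = P.Z ^ j * (P.Z ^ ((k : ℤ) + 1))⁻¹ := by
      rw [← zpow_neg, ← zpow_add]; congr 1; ring
    rw [e4, ← mul_assoc, e1]; group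
  -- step 2
  obtain ⟨z2, hz2⟩ : ∃ z2, z2 = P.up (((k : ℤ) - 1) * (-j)) * z := ⟨_, rfl⟩
  have s2 : P.a⁻¹ * P.p (P.N * x) * P.a = P.p z2 * P.Z ^ (-(k : ℤ) - 1) := by
    have e1 : P.p (P.N * x) = P.p (-x) * P.p (P.up (k : ℤ) * x) := by
      rw [← P.add]; congr 1; unfold PP.N; ring
    have e2 : P.a⁻¹ * P.p (P.N * x) * P.a
        = (P.a * P.p x * P.a)⁻¹ * (P.a * P.p (P.up (k : ℤ) * x) * P.a) := by
      rw [e1, P.pneg]; group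
    have e3 : P.p (2 * z) = P.p z * P.p z := by rw [← P.add]; congr 1; ring
    rw [e2, h, s1, e3]
    have e4 : (P.p z * P.Z ^ j)⁻¹ * (P.p z * P.p z * P.Z ^ (j - k - 1))
        = (P.Z ^ (-j) * P.p z) * P.Z ^ (j - k - 1) := by group
    rw [e4, R1, ← hz2, mul_assoc, ← zpow_add]
    congr 2; ring
  -- step 3
  have s3 : P.a⁻¹ * P.p (2 * (P.N * x)) * P.a = P.p (P.up (k : ℤ) * z2) * P.Z ^ (-(k : ℤ) - 1) := by
    have e1 : P.f⁻¹ * (P.a⁻¹ * P.p (P.N * x) * P.a) * P.f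
        = P.Z⁻¹ * (P.a⁻¹ * P.p (2 * (P.N * x)) * P.a) * P.Z := by
      calc P.f⁻¹ * (P.a⁻¹ * P.p (P.N * x) * P.a) * P.f
          = (P.f⁻¹ * P.a * P.f)⁻¹ * (P.f⁻¹ * P.p (P.N * x) * P.f) * (P.f⁻¹ * P.a * P.f) := by group
        _ = (P.a * P.Z)⁻¹ * P.p (2 * (P.N * x)) * (P.a * P.Z) := by rw [R3, pf]
        _ = _ := by group
    have e2 : P.f⁻¹ * (P.p z2 * P.Z ^ (-(k : ℤ) - 1)) * P.f = P.p (2 * z2) * P.Z ^ (-(k : ℤ) - 1) := by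
      rw [← pf]
      nth_rewrite 2 [← Z_comm_f P (-(k : ℤ) - 1)]
      group
    rw [s2, e2] at e1
    have e3 : P.a⁻¹ * P.p (2 * (P.N * x)) * P.a = P.Z * (P.p (2 * z2) * P.Z ^ (-(k : ℤ) - 1)) * P.Z⁻¹ := by
      rw [e1]; group
    rw [e3, ← mul_assoc, Zp]
    group
  have s4 : P.a⁻¹ * P.p (2 * (P.N * x)) * P.a
      = (P.a⁻¹ * P.p (P.N * x) * P.a) * (P.a⁻¹ * P.p (P.N * x) * P.a) := by
    have e3 : P.p (2 * (P.N * x)) = P.p (P.N * x) * P.p (P.N * x) := by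
      rw [← P.add]; congr 1; ring
    rw [e3]; group
  obtain ⟨c, hc⟩ : ∃ c, c = P.up (((k : ℤ) - 1) * (-(k : ℤ) - 1)) * z2 := ⟨_, rfl⟩
  have s5 : P.Z ^ ((k : ℤ) + 1) = P.p (-(P.up (k : ℤ) * z2) + (z2 + c)) := by
    have e1 := s4
    rw [s3, s2] at e1
    have e2 : P.p z2 * P.Z ^ (-(k : ℤ) - 1) * (P.p z2 * P.Z ^ (-(k : ℤ) - 1))
        = P.p z2 * (P.Z ^ (-(k : ℤ) - 1) * P.p z2) * P.Z ^ (-(k : ℤ) - 1) := by group
    rw [e2, R1, ← hc] at e1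
    rw [P.add, P.add, P.pneg]
    have e3 : P.Z ^ ((k : ℤ) + 1) = (P.Z ^ (-(k : ℤ) - 1))⁻¹ := by
      rw [← zpow_neg]; congr 1; ring
    rw [e3, inv_eq_iff_mul_eq_one]
    have e4 : P.p (P.up (k : ℤ) * z2) = P.p z2 * P.p c * P.Z ^ (-(k : ℤ) - 1) := by
      have := congrArg (fun w => w * (P.Z ^ (-(k : ℤ) - 1))⁻¹) e1
      rw [mul_inv_cancel_right] at this
      rw [this]; group
    have e5 : P.p z2 * P.p c = P.p (P.up (k : ℤ) * z2) * (P.Z ^ (-(k : ℤ) - 1))⁻¹ := by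
      rw [e4]; group
    rw [e5]; group
  have s6 : P.p (-(P.up (k : ℤ) * z2) + (z2 + c)) = 1 := by
    obtain ⟨y, hy⟩ : ∃ y, y = -(P.up (k : ℤ) * z2) + (z2 + c) := ⟨_, rfl⟩
    rw [← hy] at s5 ⊢
    have e1 := Z_comm_f P ((k : ℤ) + 1)
    rw [s5, pf, two_mul, P.add] at e1
    exact mul_eq_left.mp e1
  rw [s6] at s5
  have hZ : P.Z ^ (k + 1) = 1 := by
    have : P.Z ^ ((k + 1 : ℕ) : ℤ) = 1 := by
      rw [← s5]; congr 1
    rwa [zpow_natCast] at this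
  have hZm : P.Z ^ (-(k : ℤ) - 1) = 1 := by
    have : P.Z ^ (-(k : ℤ) - 1) = (P.Z ^ ((k : ℤ) + 1))⁻¹ := by
      rw [← zpow_neg]; congr 1; ring
    rw [this, s5, inv_one]
  refine ⟨hZ, ?_⟩
  rw [hZm, mul_one] at s2 s3
  have t1 : P.p ((2 ^ k - 2 : Λ) * z2) = 1 := by
    have e1 := s4
    rw [s3, s2, ← P.add] at e1
    have e2 : (2 ^ k - 2 : Λ) * z2 = P.up (k : ℤ) * z2 + -(z2 + z2) := by
      rw [upk]; ring
    rw [e2, P.add, e1, ← P.add, add_neg_cancel, P.p0]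
  have t2 : ∀ w : Λ, P.p ((2 ^ k - 2 : Λ) * w) = P.p w ^ ((2 : ℤ) ^ k - 2) := by
    intro w
    rw [← R6]; congr 1; push_cast; ring
  rw [t2] at t1
  have t3 : P.a⁻¹ * P.p ((2 ^ k - 2 : Λ) * (P.N * x)) * P.a = 1 := by
    rw [t2]
    have e1 : P.a⁻¹ * P.p (P.N * x) ^ ((2 : ℤ) ^ k - 2) * P.a
        = (P.a⁻¹ * P.p (P.N * x) * P.a) ^ ((2 : ℤ) ^ k - 2) := by
      have := conj_zpow (i := (2 : ℤ) ^ k - 2) (a := P.a⁻¹) (b := P.p (P.N * x))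
      rw [inv_inv] at this
      exact this.symm
    rw [e1, s2, t1]
  have t4 : P.p ((2 ^ k - 2 : Λ) * (P.N * x)) = P.a * (P.a⁻¹ * P.p ((2 ^ k - 2 : Λ) * (P.N * x)) * P.a) * P.a⁻¹ := by
    group
  rw [t4, t3, mul_one, mul_inv_cancel]

end Pool.Agent.Helper6.RK
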